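import Mathlib
import Pool.Agent.H86.TRefl.Cond

/-!
# Special sets of Calabi-Yau and Fano complete intersections with reflections

Let `Z = {x ∈ ℂ^ι : supp x ∈ U} / T` be a complete toric variety in Cox coordinates and let
`X ⊆ Z` be the closed subvariety `G_1 = … = G_c = 0`, with arbitrary singularities.  A curve class
`b` on `Z` gives the degrees `e_j = {G_j = 0} · b`, and `K_X · b = ∑ e_j - ∑ b_i` for a complete
intersection.  If `K_X · b ≤ 0` for an indecomposable class `b` (for instance if `X` is a Fano or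
Calabi-Yau complete intersection), and if the equations are invariant under a suitable reflection
`x_w ↦ ζ x_w` of order divisible by `2` or `3`, or under two reflections of order `2`, then
through the points of `X` outside the mirrors passes a curve of geometric genus at most one,
obtained from a curve in the quotient by the reflections with orbifold signature `(2, 2, 2, 2)`,
`(3, 3, 3)` or `(2, 4, 4)`.  So the special sets `Sp_sab`, `Sp_h`, `Sp_p`, `Sp_alg` are equal
to `X`.
-/

set_option autoImplicit false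

open Filter Topology

namespace Pool.Agent.Results.MP_160ed4_ag.CYReflection

open Pool.Agent.H6.Toric
open Pool.Agent.H86.TRefl (ReflCondition reflPart exists_reflData condition_weighted
  condition_projective)

/-- **Theorem.**  Let `X = {G_1 = … = G_c = 0}` in a complete toric variety
`{x ∈ ℂ^ι : supp x ∈ U} / T`.

1. Every point of `X` that satisfies the reflection condition lies on the image of a non-constant
   morphism from `G_m` or from an elliptic curve to `X`, on the image of a non-constant entire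
   curve in `X`, and on the image of a map from the punctured disc to `X` with an essential
   singularity.
2. The Zariski closure in `X` of the set of these points is contained in `Sp_sab(X)`,
   `Sp_h(X)` and `Sp_p(X)`.
3. If `X` is irreducible and contains a point all of whose coordinates are nonzero, and if all
   such points satisfy the reflection condition, then the special sets are equal to `X`.
4. Weighted projective spaces are complete, and a weighted complete intersection with
   `∑ e_j ≤ ∑ a_i` whose equations depend on `x_w` only through `x_w ^ r`, with `2 ∣ r` and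
   `a_w ≥ 2`, or `3 ∣ r`, or `4 ∣ r`, satisfies the reflection condition at all points `x` with
   `x_w ≠ 0` for which the weights of the nonzero coordinates, with `a_w` replaced by `r a_w`,
   have no common factor.
5. A complete intersection of `c` hypersurfaces of degrees `e_j` in the projective space `P^N`,
   `N + 1 = card ι`, with `∑ e_j ≤ N + 1`, whose equations depend on `x_w` only through
   `x_w ^ r`, with `2 ∣ r` and `c + 2 ≤ N`, or `3 ∣ r`, satisfies the reflection condition at all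
   points `x` with `x_w ≠ 0` that have another nonzero coordinate. -/
theorem result {ι : Type} [Fintype ι] [DecidableEq ι] (T : Subgroup (ι → ℂˣ)) (U : Set (Set ι))
    (hU : IsCompleteToric T U) {c : ℕ} (G : Fin c → MvPolynomial ι ℂ)
    (hG : ∀ j, IsTHomogeneous T (G j)) :
    (∀ P ∈ reflPart T U G,
      P ∈ gmPoints (subvariety T U G) ∪ ellipticPoints (subvariety T U G) ∧
      (∃ f : ℂ → Orbits T, (∀ z, HolomorphicAt U f z) ∧ (∀ z, f z ∈ subvariety T U G) ∧
        f 0 = P ∧ ∃ z, f z ≠ f 0) ∧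
      ∃ f : ℂ → Orbits T,
        (∀ z, 0 < ‖z‖ → ‖z‖ < 1 → HolomorphicAt U f z ∧ f z ∈ subvariety T U G) ∧
        (∃ P₁ P₂ : Orbits T, P₁ ≠ P₂ ∧ (∃ᶠ z in 𝓝[≠] (0 : ℂ), f z = P₁) ∧
          ∃ᶠ z in 𝓝[≠] (0 : ℂ), f z = P₂) ∧
        ∃ z, 0 < ‖z‖ ∧ ‖z‖ < 1 ∧ f z = P) ∧
    (zariskiClosureIn (subvariety T U G) (reflPart T U G) ⊆
      SpSabOne (subvariety T U G) ∩ SpH U (subvariety T U G) ∩ SpP U (subvariety T U G)) ∧
    (IsIrreducibleSet (subvariety T U G) →
      (∃ x : ι → ℂ, (∀ i, x i ≠ 0) ∧ pt T x ∈ subvariety T U G) →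
      (∀ x : ι → ℂ, (∀ i, x i ≠ 0) → pt T x ∈ subvariety T U G → pt T x ∈ reflPart T U G) →
      SpSabOne (subvariety T U G) = subvariety T U G ∧
      SpH U (subvariety T U G) = subvariety T U G ∧
      SpP U (subvariety T U G) = subvariety T U G) ∧
    (∀ a : ι → ℕ, (∀ i, 1 ≤ a i) → IsCompleteToric (weightedGroup a) {S | S.Nonempty}) ∧
    (∀ (a : ι → ℕ) (e : Fin c → ℕ) (w : ι) (r : ℕ), T = weightedGroup a →
      (2 ∣ r ∧ 2 ≤ a w ∨ (3 ∣ r ∨ 4 ∣ r) ∧ 1 ≤ a w) →
      (∀ j, ∀ m ∈ (G j).support, r ∣ m w) →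
      (∀ j, MvPolynomial.IsWeightedHomogeneous a (G j) (e j)) → ∑ j, e j ≤ ∑ i, a i →
      ∀ x : ι → ℂ, x w ≠ 0 →
        (∀ k : ℕ, (∀ i, x i ≠ 0 → k ∣ (if i = w then r else 1) * a i) → k = 1) →
        ReflCondition T G x) ∧
    (∀ (N : ℕ) (e : Fin c → ℕ) (w : ι) (r : ℕ), T = weightedGroup (fun _ => 1) →
      Fintype.card ι = N + 1 → (2 ∣ r ∧ c + 2 ≤ N ∨ 3 ∣ r) →
      (∀ j, ∀ m ∈ (G j).support, r ∣ m w) →
      (∀ j, (G j).IsHomogeneous (e j)) → ∑ j, e j ≤ N + 1 →
      ∀ x : ι → ℂ, x w ≠ 0 → (∃ i, i ≠ w ∧ x i ≠ 0) → ReflCondition T G x) := by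
  have hgood : ∀ P ∈ reflPart T U G,
      P ∈ gmPoints (subvariety T U G) ∪ ellipticPoints (subvariety T U G) ∧
      (∃ f : ℂ → Orbits T, (∀ z, HolomorphicAt U f z) ∧ (∀ z, f z ∈ subvariety T U G) ∧
        f 0 = P ∧ ∃ z, f z ≠ f 0) ∧
      ∃ f : ℂ → Orbits T,
        (∀ z, 0 < ‖z‖ → ‖z‖ < 1 → HolomorphicAt U f z ∧ f z ∈ subvariety T U G) ∧
        (∃ P₁ P₂ : Orbits T, P₁ ≠ P₂ ∧ (∃ᶠ z in 𝓝[≠] (0 : ℂ), f z = P₁) ∧
          ∃ᶠ z in 𝓝[≠] (0 : ℂ), f z = P₂) ∧
        ∃ z, 0 < ‖z‖ ∧ ‖z‖ < 1 ∧ f z = P := by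
    rintro P ⟨x, rfl, hx, hGx, h⟩
    obtain ⟨κ, p, w, B, P, Q, g, t₀, v₀, hκ, hB, hD⟩ := exists_reflData hGx h
    obtain ⟨h1, h2⟩ := exists_curves hκ hD hU hG hB hx
    exact ⟨mem_sab hκ hD hU hB hx hGx, h1, h2⟩
  have hsub : zariskiClosureIn (subvariety T U G) (reflPart T U G) ⊆
      SpSabOne (subvariety T U G) ∩ SpH U (subvariety T U G) ∩ SpP U (subvariety T U G) := by
    intro P hP
    refine ⟨⟨zariskiClosureIn_mono ?_ hP, zariskiClosureIn_mono ?_ hP⟩,
      zariskiClosureIn_mono ?_ hP⟩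
    · intro P hP
      exact (hgood P hP).1
    · intro P hP
      obtain ⟨-, ⟨f, h1, h2, h3, z, h4⟩, -⟩ := hgood P hP
      exact ⟨f, h1, h2, ⟨z, 0, h4⟩, 0, h3⟩
    · intro P hP
      exact (hgood P hP).2.2
  refine ⟨hgood, hsub, ?_, fun a ha => isCompleteToric_weighted a ha, ?_, ?_⟩
  · intro hirr hne hall
    have hdense := (dense_of_irreducible hirr hne hall).trans hsub
    refine ⟨Set.Subset.antisymm (fun P hP => hP.1) fun P hP => (hdense hP).1.1,
      Set.Subset.antisymm (fun P hP => hP.1) fun P hP => (hdense hP).1.2,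
      Set.Subset.antisymm (fun P hP => hP.1) fun P hP => (hdense hP).2⟩
  · intro a e w r hT hr hdvd hGa hdeg x hxw hgcd
    rw [hT]
    exact condition_weighted a e w r hr hdvd hGa hdeg x hxw hgcd
  · intro N e w r hT hN hr hdvd hGa hdeg x hxw hex
    rw [hT]
    exact condition_projective e w r (by omega) hdvd hGa (by omega) x hxw hex

end Pool.Agent.Results.MP_160ed4_ag.CYReflection
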