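import Mathlib
import Pool.Agent.H86.Graphon.Erdos

/-!
# Random colourings from graphons do not beat Erdős' bound

The best known lower bound `R(k, k) ≥ 2 ^ (k / 2)` comes from the uniform random colouring, whose
homogeneous sets have size at most `(2 + o(1)) log₂ n`.  We show that no random colouring with
independent edges and low complexity is better: for every graphon `W` the random colouring
`G(n, W)` has, with high probability, a homogeneous set of size at least `(2 - ε) log₂ n`.  So for
random colourings from graphons the analogue of the limit `L` exists and is `(log 2) / 2`.  The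
same holds for all colourings with independent edges whose matrix of edge probabilities is close
in `L¹` to a block matrix with at most `n ^ η` blocks.
-/

set_option autoImplicit false

open MeasureTheory Filter Topology

namespace Pool.Agent.Results.MP_28724c_co.GraphonColourings

open Pool.Agent.H86.Graphon

/-- **Theorem.**  Let `ε > 0`.

1. For every probability space `(Ω, μ)` and every graphon `W` on it (a symmetric measurable
   function with values in `[0, 1]`), the random colouring `G(n, W)` of the pairs of `n` vertices
   has a homogeneous set of size at least `(2 - ε) log₂ n` with probability tending to `1`.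
2. There is `η > 0` such that for all large `n`, every colouring of the pairs of `n` vertices
   with independent colours, whose matrix `P` of probabilities is, in normalized `L¹` distance,
   `η`-close to a block matrix `Q (f u) (f v)` with at most `n ^ η` blocks, has a homogeneous set
   of size at least `(2 - ε) log₂ n` with probability at least `1 - n ^ (-η)`.
3. The constant `2` is optimal: for the constant graphon `1/2` the probability of a homogeneous
   set of size at least `(2 + ε) log₂ n` tends to `0` (Erdős). -/
theorem result {ε : ℝ} (hε : 0 < ε) :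
    (∀ (Ω : Type) [MeasurableSpace Ω] (μ : Measure Ω) [IsProbabilityMeasure μ] (W : Ω → Ω → ℝ)
      (hW : ∀ x y, W x y = W y x), Measurable (Function.uncurry W) →
      (∀ x y, W x y ∈ Set.Icc (0 : ℝ) 1) →
      Tendsto (fun n : ℕ => graphonProb μ W hW n
        {c | HasHomogeneousSet c ((2 - ε) * Real.logb 2 n)}) atTop (𝓝 1)) ∧
    (∃ η : ℝ, 0 < η ∧ ∀ᶠ n : ℕ in atTop, ∀ P : Sym2 (Fin n) → ℝ,
      (∀ e, P e ∈ Set.Icc (0 : ℝ) 1) → ∀ q : ℕ, (q : ℝ) ≤ (n : ℝ) ^ η →
      ∀ (f : Fin n → Fin q) (Q : Fin q → Fin q → ℝ),
        ∑ u, ∑ v, |P s(u, v) - Q (f u) (f v)| ≤ η * (n : ℝ) ^ 2 →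
        1 - (n : ℝ) ^ (-η) ≤ prob P {c | HasHomogeneousSet c ((2 - ε) * Real.logb 2 n)}) ∧
    (∀ (Ω : Type) [MeasurableSpace Ω] (μ : Measure Ω) [IsProbabilityMeasure μ],
      Tendsto (fun n : ℕ => graphonProb μ (fun _ _ => (1 / 2 : ℝ)) (fun _ _ => rfl) n
        {c | HasHomogeneousSet c ((2 + ε) * Real.logb 2 n)}) atTop (𝓝 0)) :=
  ⟨fun _ _ μ _ W hW hWm hW01 => graphon_homogeneous μ W hW hWm hW01 hε, low_complexity' hε,
    fun _ _ μ _ => erdos_half μ hε⟩

end Pool.Agent.Results.MP_28724c_co.GraphonColourings
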