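import Pool.Agent.H86.Buchi.Final

/-!
# Families of divisors with many multiple members

Let `𝒜(x; T)` be homogeneous of degree `δ` in `x = (x_0, …, x_N)` and of degree `e` in
`T = (T_0, …, T_r)`.  It defines a family `D_t = {𝒜(x; t) = 0}` of divisors on a subset `X` of
`P^N`, of degree `e` in the parameter `t`.  We assume that no member contains all of `X` locally
(`𝒜(p; ·) ≠ 0` for `p ∈ X`) and that the member `D_i = D_(t_i)` has multiplicity at least `d_i`
along each of its components, for finitely many parameters `t_i` which are not contained in a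
hypersurface of degree `M`, where `M` and the `d_i` satisfy a numerical condition.

Then the entire curves `f` in `X` are degenerate: `𝒜(f(z); ·)` is either independent of `z`, up to
scalars, or divisible by the `m`-th power of a form of positive degree, for every `z`.  If `X` is
quasi-projective, and the map `p ↦ 𝒜(p; ·)` is defined and finite on its closure, then the special
sets `Sp_h(X)` and `Sp_p(X)` are contained in the closed set of the `p` for which `𝒜(p; ·)` is
divisible by the `m`-th power of a form of positive degree.  This set is empty if `e < m`.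
-/

set_option autoImplicit false

namespace Pool.Agent.Results.MP_160ed4_ag.OrbifoldForms

open Pool.Agent.H42.GGL (PSpace VanishesAt projectiveSet HolomorphicAt SpH zariskiClosureIn)
open Pool.Agent.H84.GT (SpP)
open Pool.Agent.H86.Kummer (Avoids)
open Pool.Agent.H86.Buchi (spec member IsBiform HasPow powerPoints NumW)
open Pool.Agent.H24.Orb (HasMult)

/-- **Special sets of varieties with a family of divisors with many multiple members.** -/
theorem result {N r e m M δ : ℕ} (hr : 1 ≤ r) (hm : 2 ≤ m)
    -- the parameters `t i`, which are on no hypersurface of degree `M`, and the multiplicities `d i`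
    {ι : Type} [Finite ι] {d : ι → ℕ} (hd : ∀ i, 1 ≤ d i) {t : ι → Fin (r + 1) → ℂ}
    (ht : Avoids M t) :
    -- the numerical condition is satisfied in the following cases
    ((∀ i, m ≤ d i) → ((3 * r + 1) * e ≤ M ∨ (e = 1 ∧ 2 * r < (m - 1) * (M - 1))) →
      NumW r e m M d) ∧
    (NumW r e m M d →
    -- the family of divisors on the set `X`
    ∀ (𝒜 : MvPolynomial (Fin (r + 1)) (MvPolynomial (Fin (N + 1)) ℂ)), IsBiform e δ 𝒜 →
    ∀ X : Set (PSpace N), (∀ p ∈ X, spec 𝒜 p.rep ≠ 0) →
    (∀ i, HasMult (d i) X δ (member 𝒜 (t i))) →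
      -- the entire curves in `X`
      (∀ f : ℂ → PSpace N, (∀ z, HolomorphicAt f z) → (∀ z, f z ∈ X) →
        (∀ z w, ∃ c : ℂ, spec 𝒜 (f z).rep = MvPolynomial.C c * spec 𝒜 (f w).rep) ∨
          ∀ z, HasPow m (spec 𝒜 (f z).rep)) ∧
      -- the special sets of `X`
      (∀ (c : ℕ) (G : Fin c → MvPolynomial (Fin (N + 1)) ℂ), (∀ k, ∃ g, (G k).IsHomogeneous g) →
        X ⊆ projectiveSet G → 1 ≤ δ → (∀ p ∈ projectiveSet G, spec 𝒜 p.rep ≠ 0) →
        SpH X ⊆ powerPoints m 𝒜 X ∧ SpP X ⊆ powerPoints m 𝒜 X) ∧
      zariskiClosureIn X (powerPoints m 𝒜 X) = powerPoints m 𝒜 X ∧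
      (e < m → powerPoints m 𝒜 X = ∅)) := by
  constructor
  · intro h1 h2
    rcases h2 with h2 | ⟨rfl, h2⟩
    · obtain ⟨h3, h4⟩ := Pool.Agent.H50.Buchi.numerical_condition' (d := m) hr h2
      exact Pool.Agent.H86.Buchi.numW_of_num h3 h1 (by omega) h4
    · obtain ⟨h3, h4⟩ := Pool.Agent.H50.Buchi.numerical_condition_one (d := m) hr h2
      exact Pool.Agent.H86.Buchi.numW_of_num h3 h1 (by omega) h4
  · intro hnum 𝒜 h𝒜 X hX hmult
    obtain ⟨h1, h2, h3, h4⟩ := Pool.Agent.H86.Buchi.orbifold_main hr hm hd ht hnum h𝒜 hX hmult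
    refine ⟨fun f hf hfX => (h1 f hf hfX).imp id fun h z => (h z).2, fun c G hG hXG hδ hfree => ?_,
      h3, h4⟩
    obtain ⟨-, -, h5, h6⟩ := h2 c G hG hXG hδ hfree
    exact ⟨h5, h6⟩

end Pool.Agent.Results.MP_160ed4_ag.OrbifoldForms
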